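import Pool.Agent.Helper4.S7.StD3

/-!
# Project W7, module Itr: iteration of the leading forms
-/

set_option autoImplicit false

namespace Pool.Agent.Helper55.S7

open Pool.Agent.Helper4.S7 Pool.Agent.Helper84.S7 Pool.Agent.Helper52.S7 Pool.Agent.Helper76.S7
open Pool.Agent.Helper14.CV (Homog EqC act Tl)
open Pool.Agent.Helper28.WK (SymP Tw evw Ok)

section

variable {r s : ℕ}

/-- the two functions -/
private noncomputable def PI (r s : ℕ) (G : ℤ → ℤ → ZMod 7) : Fin 2 → Fn7 (7 ^ r) (7 ^ s) :=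
  fun f => pf7 G f

private theorem lw_pow (hl : S7Low0) {O : Module.End (ZMod 7) (Fn7 (7 ^ r) (7 ^ s))} {k : ℤ}
    (hO : Lw O k) (n : ℕ) : Lw (O ^ n) (k * n) := by
  obtain ⟨hm, -, -, -, -, h1, -⟩ := hl r s
  induction n with
  | zero => simpa using h1
  | succ n ih =>
    rw [pow_succ]
    have := hm _ _ _ _ ih hO
    rwa [show k * n + k = k * (n + 1 : ℕ) by push_cast; ring] at this

private theorem lw_mono (hl : S7Low0) (a b : ℕ) :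
    Lw (dX ^ a * dY ^ b : Module.End (ZMod 7) (Fn7 (7 ^ r) (7 ^ s))) ((a : ℤ) + b) := by
  obtain ⟨hm, -, -, -, -, -, hx, hy, -⟩ := hl r s
  have h1 := hm _ _ _ _ (lw_pow hl hx a) (lw_pow hl hy b)
  rwa [one_mul, one_mul] at h1

private theorem lw_Qa (hl : S7Low0) : Lw (Qa : Module.End (ZMod 7) (Fn7 (7 ^ r) (7 ^ s))) 2 := by
  have h := (hl r s).2.2.1 _ 3 _ (lw_mono (r := r) (s := s) hl 1 1)
  norm_num at h
  exact h

private theorem lw_Qb (hl : S7Low0) : Lw (Qb : Module.End (ZMod 7) (Fn7 (7 ^ r) (7 ^ s))) 2 := by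
  have h := (hl r s).2.2.1 _ 4 _ (lw_mono (r := r) (s := s) hl 1 1)
  norm_num at h
  exact h

private theorem lw_L8 (hl : S7Low0) (a : ZMod 7) :
    Lw (a • (dX ^ 7 * dY + dX ^ 4 * dY ^ 4 + dX * dY ^ 7) :
      Module.End (ZMod 7) (Fn7 (7 ^ r) (7 ^ s))) 8 := by
  have h1 := lw_mono (r := r) (s := s) hl 7 1
  have h2 := lw_mono (r := r) (s := s) hl 4 4
  have h3 := lw_mono (r := r) (s := s) hl 1 7
  norm_num at h1 h2 h3
  exact (hl r s).2.2.1 _ a _ ((hl r s).2.1 _ _ _ ((hl r s).2.1 _ _ _ h1 h2) h3)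

private theorem lw_La (hl : S7Low0) : Lw (La : Module.End (ZMod 7) (Fn7 (7 ^ r) (7 ^ s))) 8 :=
  lw_L8 hl 5

private theorem lw_Lc (hl : S7Low0) : Lw (Lc : Module.End (ZMod 7) (Fn7 (7 ^ r) (7 ^ s))) 8 :=
  lw_L8 hl 2

private theorem lw_Ka (hl : S7Low0) : Lw (Ka : Module.End (ZMod 7) (Fn7 (7 ^ r) (7 ^ s))) 4 := by
  have h1 := lw_mono (r := r) (s := s) hl 3 1
  have h2 := lw_mono (r := r) (s := s) hl 0 4
  norm_num at h1 h2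
  exact (hl r s).2.2.1 _ 4 _ ((hl r s).2.1 _ _ _ h1 h2)

private theorem lw_Kb (hl : S7Low0) : Lw (Kb : Module.End (ZMod 7) (Fn7 (7 ^ r) (7 ^ s))) 4 := by
  have h1 := lw_mono (r := r) (s := s) hl 4 0
  have h2 := lw_mono (r := r) (s := s) hl 1 3
  norm_num at h1 h2
  exact (hl r s).2.1 _ _ _ h1 h2

private theorem lw_X2 (hl : S7Low0) :
    Lw ((6 : ZMod 7) • dX ^ 2 : Module.End (ZMod 7) (Fn7 (7 ^ r) (7 ^ s))) 2 := by
  have h := (hl r s).2.2.1 _ 6 _ (lw_mono (r := r) (s := s) hl 2 0)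
  norm_num at h
  exact h

private theorem lw_Y2 (hl : S7Low0) :
    Lw ((5 : ZMod 7) • dY ^ 2 : Module.End (ZMod 7) (Fn7 (7 ^ r) (7 ^ s))) 2 := by
  have h := (hl r s).2.2.1 _ 5 _ (lw_mono (r := r) (s := s) hl 0 2)
  norm_num at h
  exact h

private theorem lw_O4 (hl : S7Low0) :
    Lw ((4 : ZMod 7) • (dX ^ 3 * dY - dY ^ 4) : Module.End (ZMod 7) (Fn7 (7 ^ r) (7 ^ s))) 4 := by
  have h1 := lw_mono (r := r) (s := s) hl 3 1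
  have h2 := lw_mono (r := r) (s := s) hl 0 4
  norm_num at h1 h2
  have h3 := (hl r s).2.2.1 _ (-1) _ h2
  have h5 := neg_smul (1 : ZMod 7) (dY ^ 4 : Module.End (ZMod 7) (Fn7 (7 ^ r) (7 ^ s)))
  rw [one_smul] at h5
  rw [h5] at h3
  have h4 := (hl r s).2.1 _ _ _ h1 h3
  rw [← sub_eq_add_neg] at h4
  exact (hl r s).2.2.1 _ 4 _ h4

private theorem comK (hl : S7Low0) :
    (Kb * Ka : Module.End (ZMod 7) (Fn7 (7 ^ r) (7 ^ s))) = Ka * Kb := by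
  have h : Commute (dX : Module.End (ZMod 7) (Fn7 (7 ^ r) (7 ^ s))) dY :=
    (hl r s).2.2.2.2.2.2.2.2.1
  have hX : Commute (Kb : Module.End (ZMod 7) (Fn7 (7 ^ r) (7 ^ s))) dX := by
    unfold Kb
    exact ((Commute.refl dX).pow_left 4).add_left ((Commute.refl dX).mul_left (h.symm.pow_left 3))
  have hY : Commute (Kb : Module.End (ZMod 7) (Fn7 (7 ^ r) (7 ^ s))) dY := by
    unfold Kb
    exact (h.pow_left 4).add_left (h.mul_left ((Commute.refl dY).pow_left 3))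
  have hK : Commute (Kb : Module.End (ZMod 7) (Fn7 (7 ^ r) (7 ^ s))) Ka := by
    have h1 : (Ka : Module.End (ZMod 7) (Fn7 (7 ^ r) (7 ^ s))) =
      (4 : ZMod 7) • (dX ^ 3 * dY + dY ^ 4) := rfl
    rw [h1]
    exact Commute.smul_right (((hX.pow_right 3).mul_right hY).add_right (hY.pow_right 4)) _
  exact hK

private theorem stepL {O : Module.End (ZMod 7) (Fn7 (7 ^ r) (7 ^ s))} {k e : ℤ}
    (hO : Lw O k) {F H F' : Fn7 (7 ^ r) (7 ^ s)} (hH : F - H ∈ Wd7 (e - 1))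
    (hF' : F' - O F ∈ Wd7 (e - k - 1)) : F' - O H ∈ Wd7 (e - k - 1) := by
  have h2 : O (F - H) ∈ Wd7 (e - k - 1) := by
    have := hO (e - 1) _ hH
    rwa [show e - 1 - k = e - k - 1 by ring] at this
  have h3 := Submodule.add_mem _ hF' h2
  rwa [map_sub, sub_add_sub_cancel] at h3

private theorem ob0 (F : Fin 2 → Fn7 (7 ^ r) (7 ^ s)) : Ob7 F 0 = pj 0 (F 0) := by simp [Ob7]
private theorem ob1 (F : Fin 2 → Fn7 (7 ^ r) (7 ^ s)) : Ob7 F 1 = pj 2 (F 0 + F 1) := by simp [Ob7]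
private theorem ob2 (F : Fin 2 → Fn7 (7 ^ r) (7 ^ s)) : Ob7 F 2 = pj 4 (F 1) := by simp [Ob7]
private theorem ob3 (F : Fin 2 → Fn7 (7 ^ r) (7 ^ s)) : Ob7 F 3 = pj 2 (F 1) := by simp [Ob7]

private theorem pj_mem (hj : S7Pj) (c : ℕ) {e : ℤ} {F : Fn7 (7 ^ r) (7 ^ s)} (h : F ∈ Wd7 e) :
    pj c F ∈ Wd7 e := by
  have h1 := (hj r s).1 c e F h
  rwa [sub_zero] at h1

private theorem ob_mem (hj : S7Pj) {e : ℤ} {F : Fin 2 → Fn7 (7 ^ r) (7 ^ s)}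
    (h : ∀ f, F f ∈ Wd7 e) :
    Ob7 F 1 ∈ Wd7 e ∧ Ob7 F 2 ∈ Wd7 e ∧ Ob7 F 3 ∈ Wd7 e := by
  rw [ob1, ob2, ob3]
  exact ⟨pj_mem hj 2 (Submodule.add_mem _ (h 0) (h 1)), pj_mem hj 4 (h 1), pj_mem hj 2 (h 1)⟩

/-- the state for the observables `0` and `3` -/
private def SA (r s : ℕ) (e : ℤ) (G : ℤ → ℤ → ZMod 7) (H H' : Fn7 (7 ^ r) (7 ^ s)) : Prop :=
  SymP 7 r (s + 1) G ∧ (∀ f, PI r s G f ∈ Wd7 e) ∧ Ob7 (PI r s G) 0 - H ∈ Wd7 (e - 1) ∧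
    Ob7 (PI r s G) 3 - H' ∈ Wd7 (e - 1)

/-- the state for the observables `1` and `2` -/
private def SB (r s : ℕ) (e : ℤ) (G : ℤ → ℤ → ZMod 7) (H H' : Fn7 (7 ^ r) (7 ^ s)) : Prop :=
  SymP 7 r (s + 1) G ∧ (∀ f, PI r s G f ∈ Wd7 e) ∧ Ob7 (PI r s G) 1 - H ∈ Wd7 (e - 1) ∧
    Ob7 (PI r s G) 2 - H' ∈ Wd7 (e - 1)

private theorem stepU (hr : S7Rel) (hs : S7Stp) (hd : S7Ld) {e : ℤ} {G : ℤ → ℤ → ZMod 7}
    (hG : SymP 7 r (s + 1) G) (hF : ∀ f, PI r s G f ∈ Wd7 e) :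
    SymP 7 r (s + 1) (Uo7 (7 ^ r) G) ∧ (∀ f, PI r s (Uo7 (7 ^ r) G) f ∈ Wd7 (e - 2)) ∧
    Ob7 (PI r s (Uo7 (7 ^ r) G)) 0 - Qa (Ob7 (PI r s G) 0) ∈ Wd7 (e - 2 - 1) ∧
    Ob7 (PI r s (Uo7 (7 ^ r) G)) 1 - Qb (Ob7 (PI r s G) 1) ∈ Wd7 (e - 2 - 1) ∧
    Ob7 (PI r s (Uo7 (7 ^ r) G)) 2 - Qb (Ob7 (PI r s G) 2) ∈ Wd7 (e - 2 - 1) ∧
    Ob7 (PI r s (Uo7 (7 ^ r) G)) 3 - Qa (Ob7 (PI r s G) 3) ∈ Wd7 (e - 2 - 1) := by
  have hR : Rel7 (PI r s G) := hr (ZMod 7) _ r s G hG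
  obtain ⟨⟨hU, hU2⟩, -⟩ := hs r s G hG
  obtain ⟨l0, l1, l2, l3, l4⟩ := (hd r s e (PI r s G) hR hF).1 (PI r s (Uo7 (7 ^ r) G)) hU2
  rw [show e - 3 = e - 2 - 1 by ring] at l1 l2 l3 l4
  exact ⟨hU, l0, l1, l2, l3, l4⟩

private theorem saU (hr : S7Rel) (hs : S7Stp) (hl : S7Low0) (hd : S7Ld) {e : ℤ}
    {G : ℤ → ℤ → ZMod 7} {H H' : Fn7 (7 ^ r) (7 ^ s)} (h : SA r s e G H H') :
    SA r s (e - 2) (Uo7 (7 ^ r) G) (Qa H) (Qa H') := by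
  obtain ⟨hG, hF, h0, h3⟩ := h
  obtain ⟨l, l', l0, -, -, l3⟩ := stepU hr hs hd hG hF
  exact ⟨l, l', stepL (lw_Qa hl) h0 l0, stepL (lw_Qa hl) h3 l3⟩

private theorem sbU (hr : S7Rel) (hs : S7Stp) (hl : S7Low0) (hd : S7Ld) {e : ℤ}
    {G : ℤ → ℤ → ZMod 7} {H H' : Fn7 (7 ^ r) (7 ^ s)} (h : SB r s e G H H') :
    SB r s (e - 2) (Uo7 (7 ^ r) G) (Qb H) (Qb H') := by
  obtain ⟨hG, hF, h1, h2⟩ := h
  obtain ⟨l, l', -, l1, l2, -⟩ := stepU hr hs hd hG hF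
  exact ⟨l, l', stepL (lw_Qb hl) h1 l1, stepL (lw_Qb hl) h2 l2⟩

private theorem saE (hr : S7Rel) (hs : S7Stp) (hl : S7Low0) (hd : S7Ld) {e : ℤ}
    {G : ℤ → ℤ → ZMod 7} {H H' : Fn7 (7 ^ r) (7 ^ s)} (h : SA r s e G H H') :
    SA r s (e - 8) (V8o (7 ^ r) G) (La H) (Lc H') := by
  obtain ⟨hG, hF, h0, h3⟩ := h
  have hR : Rel7 (PI r s G) := hr (ZMod 7) _ r s G hG
  obtain ⟨-, -, ⟨hU, hU2⟩, -⟩ := hs r s G hG
  obtain ⟨l, l0, l3⟩ := (hd r s e (PI r s G) hR hF).2.2 (PI r s (V8o (7 ^ r) G)) hU2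
  rw [show e - 9 = e - 8 - 1 by ring] at l0 l3
  exact ⟨hU, l, stepL (lw_La hl) h0 l0, stepL (lw_Lc hl) h3 l3⟩

private theorem sbV (hr : S7Rel) (hs : S7Stp) (hl : S7Low0) (hd : S7Ld) {e : ℤ}
    {G : ℤ → ℤ → ZMod 7} {H H' : Fn7 (7 ^ r) (7 ^ s)} (h : SB r s e G H H') :
    SB r s (e - 4) (Vo7 (7 ^ r) G) (Ka H') (Kb H) := by
  obtain ⟨hG, hF, h1, h2⟩ := h
  have hR : Rel7 (PI r s G) := hr (ZMod 7) _ r s G hG
  obtain ⟨-, ⟨hU, hU2⟩, -⟩ := hs r s G hG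
  obtain ⟨l, l1, l2⟩ := (hd r s e (PI r s G) hR hF).2.1 (PI r s (Vo7 (7 ^ r) G)) hU2
  rw [show e - 5 = e - 4 - 1 by ring] at l1 l2
  exact ⟨hU, l, stepL (lw_Ka hl) h2 l1, stepL (lw_Kb hl) h1 l2⟩

private theorem itAU (hr : S7Rel) (hs : S7Stp) (hl : S7Low0) (hd : S7Ld) {e : ℤ}
    {G : ℤ → ℤ → ZMod 7} {H H' : Fn7 (7 ^ r) (7 ^ s)} (h : SA r s e G H H') (i : ℕ) :
    SA r s (e - 2 * i) ((Uo7 (7 ^ r))^[i] G)
      ((Qa ^ i : Module.End (ZMod 7) (Fn7 (7 ^ r) (7 ^ s))) H)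
      ((Qa ^ i : Module.End (ZMod 7) (Fn7 (7 ^ r) (7 ^ s))) H') := by
  induction i with
  | zero => simpa using h
  | succ i ih =>
    have h4 := saU hr hs hl hd ih
    have hp : (Qa ^ (i + 1) : Module.End (ZMod 7) (Fn7 (7 ^ r) (7 ^ s))) = Qa * Qa ^ i := pow_succ' _ _
    have e2 : e - 2 * ((i + 1 : ℕ) : ℤ) = e - 2 * i - 2 := by push_cast; ring
    rw [Function.iterate_succ_apply', hp, e2]
    exact h4

private theorem itBU (hr : S7Rel) (hs : S7Stp) (hl : S7Low0) (hd : S7Ld) {e : ℤ}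
    {G : ℤ → ℤ → ZMod 7} {H H' : Fn7 (7 ^ r) (7 ^ s)} (h : SB r s e G H H') (i : ℕ) :
    SB r s (e - 2 * i) ((Uo7 (7 ^ r))^[i] G)
      ((Qb ^ i : Module.End (ZMod 7) (Fn7 (7 ^ r) (7 ^ s))) H)
      ((Qb ^ i : Module.End (ZMod 7) (Fn7 (7 ^ r) (7 ^ s))) H') := by
  induction i with
  | zero => simpa using h
  | succ i ih =>
    have h4 := sbU hr hs hl hd ih
    have hp : (Qb ^ (i + 1) : Module.End (ZMod 7) (Fn7 (7 ^ r) (7 ^ s))) = Qb * Qb ^ i := pow_succ' _ _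
    have e2 : e - 2 * ((i + 1 : ℕ) : ℤ) = e - 2 * i - 2 := by push_cast; ring
    rw [Function.iterate_succ_apply', hp, e2]
    exact h4

private theorem itAE (hr : S7Rel) (hs : S7Stp) (hl : S7Low0) (hd : S7Ld) {e : ℤ}
    {G : ℤ → ℤ → ZMod 7} {H H' : Fn7 (7 ^ r) (7 ^ s)} (h : SA r s e G H H') (j : ℕ) :
    SA r s (e - 8 * j) ((V8o (7 ^ r))^[j] G)
      ((La ^ j : Module.End (ZMod 7) (Fn7 (7 ^ r) (7 ^ s))) H)
      ((Lc ^ j : Module.End (ZMod 7) (Fn7 (7 ^ r) (7 ^ s))) H') := by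
  induction j with
  | zero => simpa using h
  | succ j ih =>
    have h4 := saE hr hs hl hd ih
    have hp : (La ^ (j + 1) : Module.End (ZMod 7) (Fn7 (7 ^ r) (7 ^ s))) = La * La ^ j := pow_succ' _ _
    have hp' : (Lc ^ (j + 1) : Module.End (ZMod 7) (Fn7 (7 ^ r) (7 ^ s))) = Lc * Lc ^ j := pow_succ' _ _
    have e2 : e - 8 * ((j + 1 : ℕ) : ℤ) = e - 8 * j - 8 := by push_cast; ring
    rw [Function.iterate_succ_apply', hp, hp', e2]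
    exact h4

private theorem itBV (hr : S7Rel) (hs : S7Stp) (hl : S7Low0) (hd : S7Ld) {e : ℤ}
    {G : ℤ → ℤ → ZMod 7} {H H' : Fn7 (7 ^ r) (7 ^ s)} (h : SB r s e G H H') (j : ℕ) :
    SB r s (e - 8 * j) ((Vo7 (7 ^ r))^[2 * j] G)
      (((Ka * Kb) ^ j : Module.End (ZMod 7) (Fn7 (7 ^ r) (7 ^ s))) H)
      (((Ka * Kb) ^ j : Module.End (ZMod 7) (Fn7 (7 ^ r) (7 ^ s))) H') := by
  induction j with
  | zero => simpa using h
  | succ j ih =>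
    have h4 := sbV hr hs hl hd (sbV hr hs hl hd ih)
    have hp : ((Ka * Kb) ^ (j + 1) : Module.End (ZMod 7) (Fn7 (7 ^ r) (7 ^ s))) =
      (Ka * Kb) * (Ka * Kb) ^ j := pow_succ' _ _
    have hq : (Kb * Ka : Module.End (ZMod 7) (Fn7 (7 ^ r) (7 ^ s))) * (Ka * Kb) ^ j =
      (Ka * Kb) * (Ka * Kb) ^ j := by rw [comK hl]
    have e2 : e - 8 * ((j + 1 : ℕ) : ℤ) = e - 8 * j - 4 - 4 := by push_cast; ring
    have e3 : 2 * (j + 1) = 2 * j + 1 + 1 := by ring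
    rw [e3, Function.iterate_succ_apply', Function.iterate_succ_apply', hp, e2]
    have h5 : (((Ka * Kb) * (Ka * Kb) ^ j : Module.End (ZMod 7) (Fn7 (7 ^ r) (7 ^ s))) H') =
      Kb (Ka (((Ka * Kb) ^ j : Module.End (ZMod 7) (Fn7 (7 ^ r) (7 ^ s))) H')) := by
      rw [← hq]
      rfl
    rw [h5]
    exact h4

private theorem startA {d : ℤ} {G : ℤ → ℤ → ZMod 7} (hG : SymP 7 r (s + 1) G)
    (hF : ∀ f, PI r s G f ∈ Wd7 d) :
    SA r s d G (Ob7 (PI r s G) 0) (Ob7 (PI r s G) 3) := by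
  refine ⟨hG, hF, ?_, ?_⟩
  · rw [sub_self]
    exact Submodule.zero_mem _
  · rw [sub_self]
    exact Submodule.zero_mem _

private theorem startB {d : ℤ} {G : ℤ → ℤ → ZMod 7} (hG : SymP 7 r (s + 1) G)
    (hF : ∀ f, PI r s G f ∈ Wd7 d) :
    SB r s d G (Ob7 (PI r s G) 1) (Ob7 (PI r s G) 2) := by
  refine ⟨hG, hF, ?_, ?_⟩
  · rw [sub_self]
    exact Submodule.zero_mem _
  · rw [sub_self]
    exact Submodule.zero_mem _

private theorem kill (hl : S7Low0) {O : Module.End (ZMod 7) (Fn7 (7 ^ r) (7 ^ s))} {k e : ℤ}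
    (hO : Lw O k) {F : Fn7 (7 ^ r) (7 ^ s)} (hF : F ∈ Wd7 e) (h : e < k) : O F = 0 := by
  have hmono := (hl r s).2.2.2.2.1
  have hz : ∀ F : Fn7 (7 ^ r) (7 ^ s), F ∈ Wd7 (-1) → F = 0 :=
    (hl r s).2.2.2.2.2.2.2.2.2.2.2.2.2
  exact hz _ (hmono _ (-1) (by linarith [Int.add_one_le_of_lt h]) (hO e F hF))

private theorem leadEq (hl : S7Low0) {O : Module.End (ZMod 7) (Fn7 (7 ^ r) (7 ^ s))} {k e : ℤ}
    (hO : Lw O k) {F H : Fn7 (7 ^ r) (7 ^ s)} (hF : F - H ∈ Wd7 (e - 1)) (h : e = k) :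
    O F = O H := by
  have h1 := kill hl hO hF (by linarith)
  rw [map_sub] at h1
  exact sub_eq_zero.1 h1

/-- the end for `c = 1, 2` -/
private theorem finB (hr : S7Rel) (hs : S7Stp) (hl : S7Low0) (hj : S7Pj) (ho : S7Om) {e : ℤ}
    {K : ℤ → ℤ → ZMod 7} {H H' : Fn7 (7 ^ r) (7 ^ s)} (h : SB r s e K H H') :
    (e < 2 → Zo7 (7 ^ r) K 1 0 - Zo7 (7 ^ r) K 0 1 = 0) ∧
    (e = 2 → Zo7 (7 ^ r) K 1 0 - Zo7 (7 ^ r) K 0 1 =
      ((6 : ZMod 7) • dX ^ 2 : Module.End (ZMod 7) (Fn7 (7 ^ r) (7 ^ s))) H 0 0 +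
      ((5 : ZMod 7) • dY ^ 2 : Module.End (ZMod 7) (Fn7 (7 ^ r) (7 ^ s))) H' 0 0) := by
  obtain ⟨hG, hF, h1, h2⟩ := h
  have hmono := (hl r s).2.2.2.2.1
  have hR : Rel7 (PI r s K) := hr (ZMod 7) _ r s K hG
  obtain ⟨-, -, -, hZ, -, hv⟩ := hs r s K hG
  have hval : e ≤ 2 → Zo7 (7 ^ r) K 1 0 - Zo7 (7 ^ r) K 0 1 =
      ((6 : ZMod 7) • dX ^ 2 : Module.End (ZMod 7) (Fn7 (7 ^ r) (7 ^ s))) (Ob7 (PI r s K) 1) 0 0 +
      ((5 : ZMod 7) • dY ^ 2 : Module.End (ZMod 7) (Fn7 (7 ^ r) (7 ^ s))) (Ob7 (PI r s K) 2) 0 0 := by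
    intro he
    rw [← hv, hZ]
    exact (ho r s (PI r s K) hR).1 fun f => hmono _ _ he (hF f)
  obtain ⟨m1, m2, -⟩ := ob_mem hj hF
  refine ⟨fun he => ?_, fun he => ?_⟩
  · rw [hval he.le, kill hl (lw_X2 hl) m1 he, kill hl (lw_Y2 hl) m2 he]
    exact add_zero _
  · rw [hval he.le, leadEq hl (lw_X2 hl) h1 he, leadEq hl (lw_Y2 hl) h2 he]

/-- the end for `c = 3` -/
private theorem finA (hr : S7Rel) (hs : S7Stp) (hl : S7Low0) (hj : S7Pj) (ho : S7Om) {e : ℤ}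
    {K : ℤ → ℤ → ZMod 7} {H H' : Fn7 (7 ^ r) (7 ^ s)} (h : SA r s e K H H') :
    (e < 4 → O5o (7 ^ r) K 1 0 - O5o (7 ^ r) K 0 1 = 0) ∧
    (e = 4 → O5o (7 ^ r) K 1 0 - O5o (7 ^ r) K 0 1 =
      ((4 : ZMod 7) • (dX ^ 3 * dY - dY ^ 4) : Module.End (ZMod 7) (Fn7 (7 ^ r) (7 ^ s))) H' 0 0) := by
  obtain ⟨hG, hF, -, h3⟩ := h
  have hmono := (hl r s).2.2.2.2.1
  have hR : Rel7 (PI r s K) := hr (ZMod 7) _ r s K hG
  obtain ⟨-, -, -, -, hO, hv⟩ := hs r s K hG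
  have hval : e ≤ 4 → O5o (7 ^ r) K 1 0 - O5o (7 ^ r) K 0 1 =
      ((4 : ZMod 7) • (dX ^ 3 * dY - dY ^ 4) : Module.End (ZMod 7) (Fn7 (7 ^ r) (7 ^ s)))
        (Ob7 (PI r s K) 3) 0 0 := by
    intro he
    rw [← hv, hO]
    exact (ho r s (PI r s K) hR).2 fun f => hmono _ _ he (hF f)
  obtain ⟨-, -, m3⟩ := ob_mem hj hF
  refine ⟨fun he => ?_, fun he => ?_⟩
  · rw [hval he.le, kill hl (lw_O4 hl) m3 he]
    rfl
  · rw [hval he.le, leadEq hl (lw_O4 hl) h3 he]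

/-- the end for `c = 0` -/
private theorem fin0 (hs : S7Stp) (hl : S7Low0) (hj : S7Pj) {e : ℤ}
    {K : ℤ → ℤ → ZMod 7} {H H' : Fn7 (7 ^ r) (7 ^ s)} (h : SA r s e K H H') :
    (e < 0 → K 1 0 - K 0 1 = 0) ∧ (e = 0 → K 1 0 - K 0 1 = H 0 0) := by
  obtain ⟨hG, hF, h0, -⟩ := h
  have hmono := (hl r s).2.2.2.2.1
  have hz : ∀ F : Fn7 (7 ^ r) (7 ^ s), F ∈ Wd7 (-1) → F = 0 :=
    (hl r s).2.2.2.2.2.2.2.2.2.2.2.2.2
  obtain ⟨-, -, -, -, -, hv⟩ := hs r s K hG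
  refine ⟨fun he => ?_, fun he => ?_⟩
  · have h1 := hz _ (hmono _ (-1) (by linarith [Int.add_one_le_of_lt he]) (hF 0))
    rw [← hv K]
    exact congrFun (congrFun h1 0) 0
  · subst he
    have h1 := (hj r s).2.2.2.2.2.2.1 _ (hF 0)
    rw [ob0, h1] at h0
    have h2 := hz _ (hmono _ (-1) (by norm_num) h0)
    rw [← hv K, ← sub_eq_zero.1 h2]
    rfl

end

/-- **ITR.** -/
theorem hItr (hr : S7Rel) (hs : S7Stp) (hl : S7Low0) (hj : S7Pj) (hd : S7Ld) (ho : S7Om) :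
    S7Itr := by
  intro r s G d hG hF c i j hc
  have hA := itAU hr hs hl hd (itAE hr hs hl hd (startA (r := r) (s := s) (d := (d : ℤ)) hG hF) j) i
  have hB := itBU hr hs hl hd (itBV hr hs hl hd (startB (r := r) (s := s) (d := (d : ℤ)) hG hF) j) i
  have hC := itBU hr hs hl hd (itBV hr hs hl hd
    (sbV hr hs hl hd (startB (r := r) (s := s) (d := (d : ℤ)) hG hF)) j) i
  obtain rfl | rfl | rfl | rfl : c = 0 ∨ c = 1 ∨ c = 2 ∨ c = 3 := by omega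
  · obtain ⟨f1, f2⟩ := fin0 hs hl hj hA
    have hdg : dg7 0 i j = 2 * i + 8 * j := by simp [dg7, aa7, ab7]
    refine ⟨fun h => f1 (by rw [hdg] at h; push_cast at *; omega), fun h => ?_⟩
    have h1 := f2 (by rw [hdg] at h; push_cast at *; omega)
    refine h1.trans ?_
    rw [Fin.sum_univ_four]
    simp [PP7]
    rfl
  · obtain ⟨f1, f2⟩ := finB hr hs hl hj ho hB
    have hdg : dg7 1 i j = 2 + 2 * i + 8 * j := by simp [dg7, aa7, ab7]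
    refine ⟨fun h => f1 (by rw [hdg] at h; push_cast at *; omega), fun h => ?_⟩
    have h1 := f2 (by rw [hdg] at h; push_cast at *; omega)
    refine h1.trans ?_
    rw [Fin.sum_univ_four]
    simp [PP7]
    rfl
  · obtain ⟨f1, f2⟩ := finB hr hs hl hj ho hC
    have hdg : dg7 2 i j = 6 + 2 * i + 8 * j := by simp [dg7, aa7, ab7]
    refine ⟨fun h => f1 (by rw [hdg] at h; push_cast at *; omega), fun h => ?_⟩
    have h1 := f2 (by rw [hdg] at h; push_cast at *; omega)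
    refine h1.trans ?_
    rw [Fin.sum_univ_four]
    simp [PP7]
    exact add_comm _ _
  · obtain ⟨f1, f2⟩ := finA hr hs hl hj ho hA
    have hdg : dg7 3 i j = 4 + 2 * i + 8 * j := by simp [dg7, aa7, ab7]
    refine ⟨fun h => f1 (by rw [hdg] at h; push_cast at *; omega), fun h => ?_⟩
    have h1 := f2 (by rw [hdg] at h; push_cast at *; omega)
    refine h1.trans ?_
    rw [Fin.sum_univ_four]
    simp [PP7]
    rfl

end Pool.Agent.Helper55.S7
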